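import Pool.Agent.Helper88.GU.St

/-!
# Project GU (MP_b1e6de_al), second hand-in, module WA: constants times one entry
-/

set_option autoImplicit false

namespace Pool.Agent.Helper29.GU2

open Polynomial
open Pool.Agent.Helper91.GU Pool.Agent.Helper88.GU

universe u

/-- WA. -/
theorem hWA (hVC : StVC.{u}) : StWA.{u} := by
  intro R A _ _ _ _ 𝔨 hS r g u hg hspan
  have key : ∀ (r : ℕ) (u : Fin r → A), ∃ h : Fin r → R, (∀ l, h l ∈ 𝔨) ∧
      ∀ P : Ideal A, P.IsPrime → g ∉ P → (∀ l, u l + algebraMap R A (h l) * g ∈ P) →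
        (r : ℕ∞) ≤ P.height := by
    intro r
    induction r with
    | zero =>
      intro u
      exact ⟨fun l => l.elim0, fun l => l.elim0, fun P _ _ _ => by simp⟩
    | succ r ih =>
      intro u
      obtain ⟨h, hh, hP⟩ := ih (fun i => u i.castSucc)
      set J : Ideal A :=
        Ideal.span (Set.range fun l : Fin r => u l.castSucc + algebraMap R A (h l) * g) with hJ
      have hfin : {Q | Q ∈ J.minimalPrimes ∧ g ∉ Q}.Finite :=
        (Ideal.finite_minimalPrimes_of_isNoetherianRing A J).subset fun Q hQ => hQ.1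
      obtain ⟨z, hz, hz1, -⟩ := hS A A
        ((fun Q => (Q, (C (u (Fin.last r)) + C g * X : A[X]))) ''
          {Q | Q ∈ J.minimalPrimes ∧ g ∉ Q}) ∅ (hfin.image _) Set.finite_empty
        (by
          rintro _ ⟨Q, ⟨hQ, hgQ⟩, rfl⟩
          refine ⟨hQ.1.1, ?_, 1, ?_⟩
          · intro hle
            exact hgQ (Ideal.map_le_iff_le_comap.2 hle hg)
          · simpa using hgQ)
        (by
          intro q hq
          exact absurd hq (Set.notMem_empty q))
      refine ⟨Fin.snoc h z, ?_, ?_⟩
      · intro l
        refine Fin.lastCases ?_ (fun i => ?_) l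
        · rw [Fin.snoc_last]
          exact hz
        · rw [Fin.snoc_castSucc]
          exact hh i
      · intro P hPp hgP hall
        have h1 : ∀ l : Fin r, u l.castSucc + algebraMap R A (h l) * g ∈ P := by
          intro l
          have := hall l.castSucc
          rwa [Fin.snoc_castSucc] at this
        have h2 : u (Fin.last r) + algebraMap R A z * g ∈ P := by
          have := hall (Fin.last r)
          rwa [Fin.snoc_last] at this
        have hJP : J ≤ P := by
          rw [hJ, Ideal.span_le]
          rintro _ ⟨l, rfl⟩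
          exact h1 l
        refine hVC A J (u (Fin.last r) + algebraMap R A z * g) r (fun P => g ∉ P) ?_ ?_ ?_ P hPp hJP
          hgP h2
        · intro P P' hPP' hg' hg
          exact hg' (hPP' hg)
        · intro Q hQ hgQ hmem
          have := hz1 (Q, C (u (Fin.last r)) + C g * X) ⟨Q, ⟨hQ, hgQ⟩, rfl⟩
          refine this ?_
          simp only [eval_add, eval_C, eval_mul, eval_X]
          rwa [mul_comm g]
        · intro P' hP' hJP' hgP'
          refine hP P' hP' hgP' fun l => hJP' ?_
          exact Ideal.subset_span ⟨l, rfl⟩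
  obtain ⟨h, hh, hP⟩ := key r u
  refine ⟨h, hh, fun P hPp hall => hP P hPp ?_ hall⟩
  intro hgP
  refine hPp.ne_top (top_le_iff.1 ?_)
  rw [← hspan, Ideal.span_le]
  rintro y (rfl | ⟨l, rfl⟩)
  · exact hgP
  · have h1 := P.sub_mem (hall l) (P.mul_mem_left (algebraMap R A (h l)) hgP)
    rwa [add_sub_cancel_right] at h1

end Pool.Agent.Helper29.GU2
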